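import Mathlib
import Pool.Agent.H823.Bridge
import Pool.Agent.H823.Convex5
import Pool.Agent.H823.DefsConvex

/-!
# MP_3dbb84_gt, Q1: Arnold's conjecture for exact Lagrangian submanifolds with convex fibres

Let `N` and `L` be arbitrary closed manifolds of the same dimension and `j : L → T^*N` an exact
Lagrangian embedding, such that `j (L)` intersects every cotangent space `T_q^*N` in a nonempty
convex set.  The main example is an exact Lagrangian submanifold which is a topological graph, that
is, for which the projection `j (L) → N` is a bijection (hence a homeomorphism); the projection may
have arbitrary singularities, of any corank.  We prove that there is an exact symplectic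
diffeomorphism `Ψ : T^*L → T^*N` with `Ψ ∘ 0_L = j`, and that `j (L)` is the image of the zero
section under a symplectic diffeomorphism of `T^*N` if `L` is diffeomorphic to `N`.

Proof.  The primitive `f` of `j^* λ` is constant on the fibres of `P = π ∘ j`, because these are
convex, so `f = u₀ ∘ P` with `u₀ : N → ℝ` continuous.  The function `u₀` is not differentiable in
general, but at the regular values of `P` it is smooth and its differential is in `j (L)`; Sard's
theorem, applied to a suitable map `L → F` (an oblique version of the graph of `u₀`), and Fubini's
theorem show that on almost all segments of a chart of `N` the increments of `u₀` are controlled by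
the covectors in `j (L)`.  So the local mollifications of `u₀`, glued by a partition of unity, give
smooth functions `u` for which the graph of `du` is in a given fibrewise convex neighbourhood `V`
of `j (L)`.  If `V` is contained in a Weinstein chart of `j (L)`, then the fibrewise star-shaped
hull of `j (L)` with respect to the graph of `du` is in this chart, and a symplectic Mazur swindle
gives `Ψ`.
-/

open scoped Topology ContDiff Manifold
open Set Bundle

noncomputable section

namespace Pool.Agent.Results.MP_3dbb84_gt.ConvexFibres

open Pool.Agent.H823 Pool.Agent.H823.Arnold

universe u

/-- **Theorem.** Let `N` and `L` be closed manifolds of the same dimension, `L` nonempty, and let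
`j : L → T^*N` be an exact Lagrangian embedding such that `j (L)` meets every cotangent space of
`N` in a nonempty convex set.  Then `j` extends to an exact symplectic diffeomorphism of `T^*L` onto
`T^*N`, and if `L` and `N` are diffeomorphic then `j (L)` is the image of the zero section under a
symplectic diffeomorphism of `T^*N`. -/
theorem result {F : Type u} [NormedAddCommGroup F] [NormedSpace ℝ F] [FiniteDimensional ℝ F]
    {N : Type*} [TopologicalSpace N] [ChartedSpace F N] [IsManifold 𝓘(ℝ, F) ∞ N]
    [T2Space N] [CompactSpace N]
    {L : Type*} [TopologicalSpace L] [ChartedSpace F L] [IsManifold 𝓘(ℝ, F) ∞ L]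
    [T2Space L] [CompactSpace L] [Nonempty L]
    {j : L → CotangentBundle F N} (hj : ExactLagrangianEmbedding j) (hconv : HasConvexFibres j) :
    ExtendsExactly j ∧ (AreDiffeomorphic F L N → IsImageOfZeroSection j) := by
  have hsurj : Function.Surjective (Nearby.base (nb j)) := by
    intro q
    obtain ⟨p, x, hx⟩ := (hconv q).1
    exact ⟨x, congrArg TotalSpace.proj hx⟩
  have h1 : Nearby.ExtendsExactly (nb j) :=
    Nearby.extendsExactly_of_convexFibres hj.nb (fun q => (hconv q).2) hsurj
  refine ⟨extendsExactly_iff.2 h1, fun hLN => isImage_iff.2 ?_⟩
  exact Nearby.isImage_of_extends hLN (Nearby.extends_of_exactly h1)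

end Pool.Agent.Results.MP_3dbb84_gt.ConvexFibres
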