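import Mathlib
import Pool.Agent.H823.BridgeComplement

/-!
# MP_3dbb84_gt, Q1: exact Lagrangian submanifolds are determined by their complements

Let `N` and `L` be arbitrary closed manifolds of the same dimension and `j : L → T^*N` an exact
Lagrangian embedding.  We prove that `j (L)` is standard as soon as its complement is standard, in
a very weak sense: if `T^*N ∖ j (L)` is the symplectization of *some* closed contact manifold (with
a primitive of `ω` of the form `λ + df`, with `f` smooth on the complement only), then `j` extends
to an exact symplectic diffeomorphism of `T^*L` onto `T^*N`.  This holds in particular if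
`T^*N ∖ j (L)` is exactly symplectomorphic to `T^*K ∖ 0_K` for some closed manifold `K`.  Nothing
is assumed about the behaviour of the flow, or of the symplectomorphism, near `j (L)`, nor about
how the ends of the complements correspond to each other.

Proof.  A volume argument shows that the end `r → 0` of the symplectization is the end at `j (L)`
(the other end of the complement is at infinity).  So the Liouville flow `φ_t` contracts to
`j (L)` for `t → -∞`, although it does not extend to `j (L)`.  Let `w` be a Weinstein chart of
`j (L)`.  The isotopy `s ↦ w ∘ e^{-s} ∘ w⁻¹ ∘ φ_{s - T}`, `0 ≤ s ≤ T`, from `φ_{-T}` to the radial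
contraction of the chart, is extended from a compact shell around `j (L)` to a Hamiltonian isotopy
with small support away from `j (L)`; so `φ_{-T}`, changed by this isotopy, coincides on the shell
with the radial contraction, and the two are glued to an exact conformally symplectic
diffeomorphism `η` of `T^*N` for which `j (L)` is an attractor.  A symplectic Mazur swindle gives
the exact symplectic diffeomorphism of `T^*L` onto `T^*N`.
-/

open scoped Topology ContDiff Manifold
open Set Bundle

noncomputable section

namespace Pool.Agent.Results.MP_3dbb84_gt.DeterminedByComplement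

open Pool.Agent.H823 Pool.Agent.H823.Arnold

universe u

/-- **Theorem.** Let `N` and `L` be closed manifolds of the same dimension, `L` nonempty, and let
`j : L → T^*N` be an exact Lagrangian embedding.  Then `j` extends to an exact symplectic
diffeomorphism of `T^*L` onto `T^*N` if and only if `T^*N ∖ j (L)` is the symplectization of a
closed contact manifold; and `j (L)` is the image of the zero section under a symplectic
diffeomorphism of `T^*N` if and only if, moreover, `L` and `N` are diffeomorphic.  In particular
`j` extends to an exact symplectic diffeomorphism of `T^*L` onto `T^*N` if `T^*N ∖ j (L)` is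
exactly symplectomorphic to `T^*K ∖ 0_K` for some closed manifold `K`. -/
theorem result {F : Type u} [NormedAddCommGroup F] [NormedSpace ℝ F] [FiniteDimensional ℝ F]
    {N : Type*} [TopologicalSpace N] [ChartedSpace F N] [IsManifold 𝓘(ℝ, F) ∞ N]
    [T2Space N] [CompactSpace N]
    {L : Type*} [TopologicalSpace L] [ChartedSpace F L] [IsManifold 𝓘(ℝ, F) ∞ L]
    [T2Space L] [CompactSpace L] [Nonempty L]
    {K : Type*} [TopologicalSpace K] [ChartedSpace F K] [IsManifold 𝓘(ℝ, F) ∞ K]
    [T2Space K] [CompactSpace K]
    {j : L → CotangentBundle F N} (hj : ExactLagrangianEmbedding j) :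
    (ExtendsExactly j ↔ IsSymplectization (range j)ᶜ) ∧
    (IsImageOfZeroSection j ↔ AreDiffeomorphic F L N ∧ IsSymplectization (range j)ᶜ) ∧
    (ExactlySymplectomorphic (range (zeroSection F K))ᶜ (range j)ᶜ → ExtendsExactly j) := by
  have hS : IsClosed (range (nb j)) := (isCompact_range hj.nb.smooth.continuous).isClosed
  have h1 : ExtendsExactly j ↔ IsSymplectization (range j)ᶜ := by
    rw [extendsExactly_iff, isSymplectization_iff]
    constructor
    · intro h
      obtain ⟨𝒬⟩ := Nearby.nonempty_punct h
      exact 𝒬.nonempty_conic hS
    · rintro ⟨𝒢⟩
      exact Nearby.extendsExactly_of_conicFlow hj.nb 𝒢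
  refine ⟨h1, ?_, ?_⟩
  · constructor
    · intro h
      obtain ⟨hLN, he⟩ := Nearby.extends_of_isImage hj.nb (isImage_iff.1 h)
      exact ⟨hLN, h1.1 (extendsExactly_iff.2
        (Nearby.extendsExactly_of_engulfing hj.nb (Nearby.engulfing_of_extends he)))⟩
    · rintro ⟨hLN, h⟩
      exact isImage_iff.2 (Nearby.isImage_of_extends hLN
        (Nearby.extends_of_exactly (extendsExactly_iff.1 (h1.2 h))))
  · intro h
    obtain ⟨𝒬⟩ := nonempty_punct h
    exact h1.2 (isSymplectization_iff.2 (𝒬.nonempty_conic hS))

end Pool.Agent.Results.MP_3dbb84_gt.DeterminedByComplement
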