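import Mathlib
import Pool.Agent.H823.Bridge

/-!
# MP_3dbb84_gt, Q1: Arnold's conjecture is an engulfing property of Weinstein neighbourhoods

Let `N` and `L` be arbitrary closed manifolds of the same dimension and let `j : L → T^*N` be an
exact Lagrangian embedding.  Q1 asks for a symplectic diffeomorphism `ψ` of `T^*N` with
`j (L) = ψ (0_N)`.

By Weinstein's theorem `j` extends to a symplectic embedding of SOME neighbourhood of the zero
section of `T^*L`.  The theorem shows that Q1 for `j` is decided by ONE COMPACT SET, the cone
`cone j = 0_N ∪ {t j (q) : 0 ≤ t ≤ 1}`:

* `j (L)` is the image of the zero section under a symplectic diffeomorphism of `T^*N` if and only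
  if `L` is diffeomorphic to `N` and `j` extends to a symplectic embedding of a fibrewise
  star-shaped open neighbourhood `O` of the zero section of `T^*L` whose image contains `cone j`
  (`Engulfing j`; only the compact set `cone j` has to be engulfed, and `w` need not be exact);
* this is also equivalent (for `L` diffeomorphic to `N`) to a dynamical property: `j (L)` is
  invariant under some exact conformally symplectic diffeomorphism `η` of `T^*N`,
  `η^* λ = c λ + df`, `c < 1`, whose iterates move `cone j` into every neighbourhood of `j (L)`
  (`AttractsCone j`), or even `j (L)` is the global attractor of such an `η`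
  (`IsGlobalAttractor j`), or `j (L)` is the skeleton of a complete Liouville structure `λ + df`
  of `T^*N` (`IsSkeleton j`).

Without the assumption that `L` and `N` are diffeomorphic, all these properties are equivalent to
the existence of a symplectic diffeomorphism `Ψ : T^*L → T^*N` with `Ψ ∘ 0_L = j` (`Extends j`), and
of an exact one (`ExtendsExactly j`).

The proof is a Mazur swindle (an infinite process as in the proof of the generalised Schoenflies
theorem): with `V` a compact fibrewise star-shaped neighbourhood of the cone in `w (O)`, the
contraction of `T^*N` and the contraction of `T^*L` are isotopic as exact conformally symplectic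
embeddings of `V` into itself, and the two direct limits are `T^*N` and `T^*L`.

The definitions are in `Pool/Agent/H823/Defs.lean` and `Pool/Agent/H823/DefsCriteria.lean`.
-/

open scoped Topology ContDiff Manifold
open Set Bundle

noncomputable section

namespace Pool.Agent.Results.MP_3dbb84_gt.EngulfingCriterion

open Pool.Agent.H823 Pool.Agent.H823.Arnold

universe u

/-- **Theorem.** Let `L` and `N` be closed manifolds of the same dimension, `L` nonempty, and let
`j : L → T^*N` be an exact Lagrangian embedding.  The following are equivalent: `j` extends to a
symplectic diffeomorphism `T^*L → T^*N`; `j` extends to an exact one; some Weinstein chart of `j`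
with fibrewise star-shaped domain engulfs the compact set `cone j`; `j (L)` attracts `cone j` under
a contracting exact conformally symplectic diffeomorphism of `T^*N`; `j (L)` is the global
attractor of such a diffeomorphism; `j (L)` is the skeleton of a complete Liouville structure
`λ + df`.  Moreover `j (L)` is the image of the zero section under a symplectic diffeomorphism of
`T^*N` if and only if these properties hold and `L` is diffeomorphic to `N`. -/
theorem result {F : Type u} [NormedAddCommGroup F] [NormedSpace ℝ F] [FiniteDimensional ℝ F]
    {N : Type*} [TopologicalSpace N] [ChartedSpace F N] [IsManifold 𝓘(ℝ, F) ∞ N]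
    [T2Space N] [CompactSpace N]
    {L : Type*} [TopologicalSpace L] [ChartedSpace F L] [IsManifold 𝓘(ℝ, F) ∞ L]
    [T2Space L] [CompactSpace L] [Nonempty L]
    {j : L → CotangentBundle F N} (hj : ExactLagrangianEmbedding j) :
    List.TFAE [Extends j, ExtendsExactly j, Engulfing j, AttractsCone j, IsGlobalAttractor j,
      IsSkeleton j] ∧
    (IsImageOfZeroSection j ↔ AreDiffeomorphic F L N ∧ Engulfing j) := by
  rw [extends_iff, extendsExactly_iff, engulfing_iff, attractsCone_iff, isGlobalAttractor_iff,
    isSkeleton_iff, isImage_iff, areDiffeomorphic_iff]
  have hj' := hj.nb
  have h : List.TFAE [Nearby.Extends (nb j), Nearby.ExtendsExactly (nb j),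
      Nearby.Engulfing (nb j), Nearby.AttractsCone (nb j),
      Nearby.IsGlobalAttractor (nb j), Nearby.IsSkeleton (nb j)] := by
    tfae_have 2 → 1 := Nearby.extends_of_exactly
    tfae_have 1 → 3 := Nearby.engulfing_of_extends
    tfae_have 3 → 2 := Nearby.extendsExactly_of_engulfing hj'
    tfae_have 4 → 2 := Nearby.extendsExactly_of_attractsCone hj'
    tfae_have 5 → 4 := Nearby.attractsCone_of_isGlobalAttractor hj'
    tfae_have 6 → 5 := Nearby.isGlobalAttractor_of_isSkeleton
    tfae_have 2 → 6 := Nearby.isSkeleton_of_extendsExactly
    tfae_finish
  refine ⟨h, ?_, ?_⟩
  · intro hi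
    obtain ⟨h1, h2⟩ := Nearby.extends_of_isImage hj' hi
    exact ⟨h1, Nearby.engulfing_of_extends h2⟩
  · rintro ⟨h1, h2⟩
    exact Nearby.isImage_of_extends h1
      (Nearby.extends_of_exactly (Nearby.extendsExactly_of_engulfing hj' h2))

end Pool.Agent.Results.MP_3dbb84_gt.EngulfingCriterion
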