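import Mathlib
import Pool.Agent.H823.Bridge
import Pool.Agent.H823.Limits
import Pool.Agent.H823.DefsLimits

/-!
# MP_3dbb84_gt, Q1: Arnold's conjecture is closed under limits of symplectic diffeomorphisms

Let `N` and `L` be arbitrary closed manifolds of the same dimension.  Suppose that the exact
Lagrangian submanifold `j (L)` of `T^*N` is the image of the zero section under a map
`h : T^*N → T^*N` which is only a `C^0` limit (uniform on compact sets) of exact symplectic
diffeomorphisms, for example a Hamiltonian homeomorphism, or any homeomorphism in the `C^0` closure
of the group of exact symplectic diffeomorphisms.  Then there is an exact symplectic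
diffeomorphism `Ψ : T^*L → T^*N` with `Ψ ∘ 0_L = j`.  If `L` is diffeomorphic to `N` (`L` is
homeomorphic to `N` when `h` is a homeomorphism; so there is no condition in dimension at most
three), then `j (L)` is the image of the zero section under a symplectic DIFFEOMORPHISM of `T^*N`.

So Arnold's conjecture holds for an exact Lagrangian submanifold as soon as it holds for it in the
sense of `C^0` symplectic topology.  The map `h` need not be injective: it is enough that
`h⁻¹ (j (L))` is the zero section, in some neighbourhood of the zero section.

The proof combines a degree-free separation argument (for a small compact fibrewise star-shaped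
neighbourhood `D` of the zero section and large `k`, the set `ψ_k (D)` lies in a Weinstein chart of
`j (L)` and contains `j (L)` in its interior) with a symplectic Mazur swindle.
-/

open scoped Topology ContDiff Manifold
open Set Bundle

noncomputable section

namespace Pool.Agent.Results.MP_3dbb84_gt.SymplecticHomeomorphism

open Pool.Agent.H823 Pool.Agent.H823.Arnold

universe u

/-- **Theorem.** Let `N` and `L` be closed manifolds of the same dimension, `L` nonempty, let
`j : L → T^*N` be an exact Lagrangian embedding, and suppose that `j (L)` is the image of the zero
section under a map `h` which is a `C^0` limit of exact symplectic diffeomorphisms of `T^*N` (and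
that no other point near the zero section is mapped to `j (L)`).  Then `j` extends to an exact
symplectic diffeomorphism of `T^*L` onto `T^*N`, and if `L` and `N` are diffeomorphic then `j (L)`
is the image of the zero section under a symplectic diffeomorphism of `T^*N`. -/
theorem result {F : Type u} [NormedAddCommGroup F] [NormedSpace ℝ F] [FiniteDimensional ℝ F]
    {N : Type*} [TopologicalSpace N] [ChartedSpace F N] [IsManifold 𝓘(ℝ, F) ∞ N]
    [T2Space N] [CompactSpace N]
    {L : Type*} [TopologicalSpace L] [ChartedSpace F L] [IsManifold 𝓘(ℝ, F) ∞ L]
    [T2Space L] [CompactSpace L] [Nonempty L]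
    {j : L → CotangentBundle F N} (hj : ExactLagrangianEmbedding j)
    {h : CotangentBundle F N → CotangentBundle F N} (hh : IsLimitOfExactSymplectic h)
    (hhj : MapsZeroSectionOnto h (range j)) :
    ExtendsExactly j ∧ (AreDiffeomorphic F L N → IsImageOfZeroSection j) := by
  obtain ⟨hc, ψ, hψ, hconv⟩ := hh
  choose Ψ hΨ using fun k => (hψ k).1
  have hj' := hj.nb
  have h1 : Nearby.ExtendsExactly (nb j) := by
    refine Nearby.extendsExactly_of_limit hj' (fun k => dn (Ψ k)) (fun k => ?_) (h := h) hc ?_
      hhj.1 hhj.2
    · have h2 := (hψ k).2
      rw [← hΨ k] at h2
      exact h2
    · have h3 : (fun k => (dn (Ψ k) : Nearby.CotangentBundle F N → Nearby.CotangentBundle F N)) =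
          ψ := by
        ext1 k
        exact hΨ k
      rw [h3]
      exact hconv
  refine ⟨extendsExactly_iff.2 h1, fun hLN => isImage_iff.2 ?_⟩
  exact Nearby.isImage_of_extends hLN (Nearby.extends_of_exactly h1)

end Pool.Agent.Results.MP_3dbb84_gt.SymplecticHomeomorphism
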